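import Mathlib
import Pool.Agent.U137.DeBruijnSpec

set_option autoImplicit false

/-!
# Typical-start cutoff fails under the relaxation-time condition, for non-reversible chains

The chain on words of length `m` moves at rate `1` like a shift register with a uniformly random
new symbol, and at the small rate `1 / T` it jumps to a uniformly random word. The shift part is
nilpotent modulo constants, so the only nonzero eigenvalue of minus the generator is `1 + 1 / T`,
and the laws are known exactly. With `m = 2 T ^ 2` and `T` tending to infinity the distance from any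
start is asymptotically `exp (- t / T)`. The device of adding rare uniform jumps is the one of the
well known example of Pak (for the worst start and reversible chains).
-/

open Finset Filter Topology

namespace Pool.Agent.Results.MP_d1aba8_pr.NonreversibleNoCutoff

noncomputable section

/-- `Q` is the generator of a continuous-time Markov chain on the finite set `S`. -/
def IsGenerator {S : Type} [Fintype S] (Q : Matrix S S ℝ) : Prop :=
  (∀ x y, x ≠ y → 0 ≤ Q x y) ∧ ∀ x, ∑ y, Q x y = 0

/-- Irreducibility: any state can be reached from any other one by jumps of positive rate. -/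
def IsIrred {S : Type} (Q : Matrix S S ℝ) : Prop :=
  ∀ x y, Relation.ReflTransGen (fun u v => u ≠ v ∧ 0 < Q u v) x y

/-- `π` is a stationary distribution of the chain with generator `Q`. -/
def IsStationary {S : Type} [Fintype S] (Q : Matrix S S ℝ) (π : S → ℝ) : Prop :=
  (∀ x, 0 ≤ π x) ∧ ∑ x, π x = 1 ∧ ∀ y, ∑ x, π x * Q x y = 0

/-- Detailed balance. -/
def IsReversible {S : Type} (Q : Matrix S S ℝ) (π : S → ℝ) : Prop :=
  ∀ x y, π x * Q x y = π y * Q y x

/-- Law of `X_t` under `P_x`: the row `x` of the exponential of `t` times the generator. -/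
def law {S : Type} [Fintype S] [DecidableEq S] (Q : Matrix S S ℝ) (t : ℝ) (x y : S) : ℝ :=
  NormedSpace.exp (t • Q) x y

/-- `‖P_x(X_t ∈ ·) - π‖`, the total variation distance. -/
def dist {S : Type} [Fintype S] [DecidableEq S] (Q : Matrix S S ℝ) (π : S → ℝ) (x : S) (t : ℝ) :
    ℝ := 1 / 2 * ∑ y, |law Q t x y - π y|

/-- `τ_x = inf {t ≥ 0 : ‖P_x(X_t ∈ ·) - π‖ ≤ 1/4}`. -/
def tau {S : Type} [Fintype S] [DecidableEq S] (Q : Matrix S S ℝ) (π : S → ℝ) (x : S) : ℝ :=
  sInf {t : ℝ | 0 ≤ t ∧ dist Q π x t ≤ 1 / 4}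

open Classical in
/-- `π`-probability of the set of states with the property `A`. -/
def prob {S : Type} [Fintype S] (π : S → ℝ) (A : S → Prop) : ℝ := ∑ x, if A x then π x else 0

/-- `r` is a median of `τ_x` when `x` is drawn from `π`. -/
def IsMedian {S : Type} [Fintype S] [DecidableEq S] (Q : Matrix S S ℝ) (π : S → ℝ) (r : ℝ) :
    Prop :=
  1 / 2 ≤ prob π (fun x => tau Q π x ≤ r) ∧ 1 / 2 ≤ prob π (fun x => r ≤ tau Q π x)

/-- The spectral gap: the smallest real part of a nonzero (complex) eigenvalue of `-Q`. -/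
def gap {S : Type} [Fintype S] [DecidableEq S] (Q : Matrix S S ℝ) : ℝ :=
  sInf {r : ℝ | ∃ z : ℂ, z ∈ spectrum ℂ (-(Q.map (algebraMap ℝ ℂ))) ∧ z ≠ 0 ∧ r = z.re}

/-- The relaxation time `τ₂`. -/
def trel {S : Type} [Fintype S] [DecidableEq S] (Q : Matrix S S ℝ) : ℝ := 1 / gap Q

/-! ### General facts -/

theorem exists_median {S : Type} [Fintype S] [Nonempty S] (π f : S → ℝ) (h0 : ∀ x, 0 ≤ π x)
    (h1 : ∑ x, π x = 1) :
    ∃ r, 1 / 2 ≤ prob π (fun x => f x ≤ r) ∧ 1 / 2 ≤ prob π (fun x => r ≤ f x) := by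
  classical
  set W : Finset ℝ := (univ.image f).filter (fun r => 1 / 2 ≤ prob π (fun x => f x ≤ r)) with hW
  have hmax : ∃ r ∈ W, True := by
    obtain ⟨x0, -, hx0⟩ := Finset.exists_max_image (univ : Finset S) f Finset.univ_nonempty
    refine ⟨f x0, Finset.mem_filter.2 ⟨Finset.mem_image_of_mem _ (Finset.mem_univ _), ?_⟩, trivial⟩
    have : prob π (fun x => f x ≤ f x0) = 1 := by
      unfold prob
      rw [← h1]
      exact Finset.sum_congr rfl fun x _ => if_pos (hx0 x (Finset.mem_univ _))
    rw [this]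
    norm_num
  have hne : W.Nonempty := by
    obtain ⟨r, hr, -⟩ := hmax
    exact ⟨r, hr⟩
  set r := W.min' hne with hr
  have hrW : r ∈ W := Finset.min'_mem W hne
  refine ⟨r, (Finset.mem_filter.1 hrW).2, ?_⟩
  by_contra hcon
  push Not at hcon
  -- mass of f < r is more than 1/2
  have h2 : prob π (fun x => f x < r) + prob π (fun x => r ≤ f x) = 1 := by
    unfold prob
    rw [← Finset.sum_add_distrib, ← h1]
    refine Finset.sum_congr rfl fun x _ => ?_
    by_cases hx : f x < r
    · rw [if_pos hx, if_neg (not_le.2 hx), add_zero]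
    · rw [if_neg hx, if_pos (not_lt.1 hx), zero_add]
  have h3 : 1 / 2 < prob π (fun x => f x < r) := by linarith
  have h4 : (univ.filter (fun x => f x < r)).Nonempty := by
    by_contra hemp
    rw [Finset.not_nonempty_iff_eq_empty, Finset.filter_eq_empty_iff] at hemp
    have : prob π (fun x => f x < r) = 0 := by
      unfold prob
      exact Finset.sum_eq_zero fun x _ => if_neg (hemp (Finset.mem_univ x))
    linarith
  obtain ⟨x1, hx1, hx1m⟩ := Finset.exists_max_image (univ.filter (fun x => f x < r)) f h4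
  have hx1r : f x1 < r := (Finset.mem_filter.1 hx1).2
  have h5 : f x1 ∈ W := by
    refine Finset.mem_filter.2 ⟨Finset.mem_image_of_mem _ (Finset.mem_univ _), ?_⟩
    refine le_trans h3.le ?_
    unfold prob
    refine Finset.sum_le_sum fun x _ => ?_
    by_cases hx : f x < r
    · rw [if_pos hx, if_pos (hx1m x (Finset.mem_filter.2 ⟨Finset.mem_univ _, hx⟩))]
    · rw [if_neg hx]
      split_ifs
      · exact h0 x
      · exact le_refl _
  have h6 := Finset.min'_le W _ h5
  rw [← hr] at h6
  linarith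

theorem prob_pos_exists {S : Type} [Fintype S] (π : S → ℝ) (A : S → Prop)
    (h : 1 / 2 ≤ prob π A) : ∃ x, A x := by
  by_contra hcon
  push Not at hcon
  have : prob π A = 0 := by
    unfold prob
    exact Finset.sum_eq_zero fun x _ => if_neg (hcon x)
  rw [this] at h
  norm_num at h

theorem prob_eq_zero {S : Type} [Fintype S] (π : S → ℝ) (A : S → Prop)
    (h : ∀ x, ¬ A x) : prob π A = 0 := by
  unfold prob
  exact Finset.sum_eq_zero fun x _ => if_neg (h x)

/-! ### The chain -/

open Pool.Agent.U137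

/-- length of the words -/
def len (n : ℕ) : ℕ := 2 * (n + 1) ^ 2

theorem len_pos (n : ℕ) : 0 < len n := by unfold len; positivity

/-- words -/
abbrev W (n : ℕ) : Type := Fin (len n) → Bool

/-- the uniform distribution -/
def unif (n : ℕ) : W n → ℝ := fun _ => 1 / 2 ^ len n

/-- the generator of the chain -/
def G (n : ℕ) : Matrix (W n) (W n) ℝ := DB.Q (len n) (1 / (n + 1))

/-- the error term -/
def err (n : ℕ) (t : ℝ) : ℝ := t / (n + 1) ^ 2 + 1 / 2 ^ ((n + 1) ^ 2)

theorem dist_eq (n : ℕ) (x : W n) (t : ℝ) : dist (G n) (unif n) x t = DB.tv (len n) (1 / (n + 1)) x t :=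
  rfl

theorem dist_upper (n : ℕ) (x : W n) (t : ℝ) (ht : 0 ≤ t) :
    dist (G n) (unif n) x t ≤ Real.exp (-(t / (n + 1))) := by
  rw [dist_eq]
  refine (DB.tv_upper (len_pos n) _ t ht x).trans (le_of_eq ?_)
  congr 1
  ring

theorem dist_lower (n : ℕ) (x : W n) (t : ℝ) (ht : 0 ≤ t) :
    Real.exp (-(t / (n + 1))) * (1 - err n t) ≤ dist (G n) (unif n) x t := by
  rw [dist_eq]
  have h := DB.tv_lower (len_pos n) (1 / ((n : ℝ) + 1)) t ht x ((n + 1) ^ 2) (by positivity)
  refine le_trans (le_of_eq ?_) h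
  have h1 : (2 : ℝ) ^ (n + 1) ^ 2 / 2 ^ len n = 1 / 2 ^ (n + 1) ^ 2 := by
    unfold len
    rw [two_mul, pow_add]
    field_simp
  rw [h1]
  unfold err
  push_cast
  have h2 : -(1 / ((n : ℝ) + 1) * t) = -(t / (n + 1)) := by ring
  rw [h2]
  ring

theorem tau_upper (n : ℕ) (x : W n) : tau (G n) (unif n) x ≤ (n + 1) * Real.log 4 := by
  have hn : (0 : ℝ) < n + 1 := by positivity
  have hl : 0 < Real.log 4 := Real.log_pos (by norm_num)
  refine csInf_le ⟨0, fun t ht => ht.1⟩ ⟨by positivity, ?_⟩
  refine (dist_upper n x _ (by positivity)).trans (le_of_eq ?_)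
  have : ((n : ℝ) + 1) * Real.log 4 / (n + 1) = Real.log 4 := by field_simp
  rw [this, Real.exp_neg, Real.exp_log (by norm_num)]
  norm_num

/-- the error at time `(n + 1) log 4` -/
def del (n : ℕ) : ℝ := Real.log 4 / (n + 1) + 1 / 2 ^ ((n + 1) ^ 2)

theorem err_mono (n : ℕ) {s t : ℝ} (h : s ≤ t) : err n s ≤ err n t := by
  unfold err
  gcongr

theorem err_del (n : ℕ) : err n ((n + 1) * Real.log 4) = del n := by
  unfold err del
  have hn : (0 : ℝ) < n + 1 := by positivity
  have : ((n : ℝ) + 1) * Real.log 4 / (n + 1) ^ 2 = Real.log 4 / (n + 1) := by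
    field_simp
  rw [this]

theorem del_nonneg (n : ℕ) : 0 ≤ del n := by
  unfold del
  have hl : 0 < Real.log 4 := Real.log_pos (by norm_num)
  positivity

theorem tau_lower (n : ℕ) (hn : del n < 1) (x : W n) :
    (n + 1) * (Real.log 4 + Real.log (1 - del n)) ≤ tau (G n) (unif n) x := by
  have hn' : (0 : ℝ) < n + 1 := by positivity
  have hl : 0 < Real.log 4 := Real.log_pos (by norm_num)
  have hlog : Real.log (1 - del n) ≤ 0 :=
    Real.log_nonpos (by linarith) (by linarith [del_nonneg n])
  refine le_csInf ?_ ?_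
  · refine ⟨(n + 1) * Real.log 4, by positivity, ?_⟩
    refine (dist_upper n x _ (by positivity)).trans (le_of_eq ?_)
    have : ((n : ℝ) + 1) * Real.log 4 / (n + 1) = Real.log 4 := by field_simp
    rw [this, Real.exp_neg, Real.exp_log (by norm_num)]
    norm_num
  · rintro t ⟨ht0, ht⟩
    by_cases hc : (n + 1) * Real.log 4 ≤ t
    · refine le_trans ?_ hc
      have : ((n : ℝ) + 1) * Real.log (1 - del n) ≤ 0 :=
        mul_nonpos_of_nonneg_of_nonpos hn'.le hlog
      linarith [mul_add ((n : ℝ) + 1) (Real.log 4) (Real.log (1 - del n))]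
    · push Not at hc
      have h1 := (dist_lower n x t ht0).trans ht
      have h2 : 1 - del n ≤ 1 - err n t := by
        have := err_mono n hc.le
        rw [err_del] at this
        linarith
      have h3 : Real.exp (-(t / (n + 1))) * (1 - del n) ≤ 1 / 4 :=
        le_trans (mul_le_mul_of_nonneg_left h2 (Real.exp_pos _).le) h1
      have h4 : Real.log (Real.exp (-(t / (n + 1))) * (1 - del n)) ≤ Real.log (1 / 4) :=
        Real.log_le_log (mul_pos (Real.exp_pos _) (by linarith)) h3
      rw [Real.log_mul (Real.exp_pos _).ne' (by linarith), Real.log_exp, one_div,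
        Real.log_inv] at h4
      have h5 : Real.log 4 + Real.log (1 - del n) ≤ t / (n + 1) := by linarith
      rw [le_div_iff₀ hn'] at h5
      linarith

theorem pow_sq_le (n : ℕ) : (1 : ℝ) / 2 ^ ((n + 1) ^ 2) ≤ 1 / (n + 1) := by
  have h1 : n + 1 ≤ 2 ^ ((n + 1) ^ 2) := by
    calc n + 1 ≤ (n + 1) ^ 2 := Nat.le_self_pow (by norm_num) _
      _ ≤ 2 ^ ((n + 1) ^ 2) := Nat.lt_two_pow_self.le
  have h2 : ((n : ℝ) + 1) ≤ 2 ^ ((n + 1) ^ 2) := by exact_mod_cast h1
  exact one_div_le_one_div_of_le (by positivity) h2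

theorem tendsto_inv : Tendsto (fun n : ℕ => 1 / ((n : ℝ) + 1)) atTop (𝓝 0) :=
  tendsto_one_div_add_atTop_nhds_zero_nat

theorem tendsto_small : Tendsto (fun n : ℕ => (1 : ℝ) / 2 ^ ((n + 1) ^ 2)) atTop (𝓝 0) :=
  squeeze_zero (fun n => by positivity) pow_sq_le tendsto_inv

theorem tendsto_del : Tendsto del atTop (𝓝 0) := by
  have h1 := tendsto_inv.const_mul (Real.log 4)
  have h2 := h1.add tendsto_small
  simp only [mul_zero, add_zero] at h2
  refine h2.congr fun n => ?_
  unfold del
  ring

theorem median_bounds (n : ℕ) (hn : del n < 1) (r : ℝ) (hr : IsMedian (G n) (unif n) r) :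
    (n + 1) * (Real.log 4 + Real.log (1 - del n)) ≤ r ∧ r ≤ (n + 1) * Real.log 4 := by
  obtain ⟨x, hx⟩ := prob_pos_exists _ _ hr.1
  obtain ⟨y, hy⟩ := prob_pos_exists _ _ hr.2
  exact ⟨(tau_lower n hn x).trans hx, hy.trans (tau_upper n y)⟩

theorem tendsto_median (τ : ℕ → ℝ) (hτ : ∀ n, IsMedian (G n) (unif n) (τ n)) :
    Tendsto (fun n : ℕ => τ n / (n + 1)) atTop (𝓝 (Real.log 4)) := by
  have h1 : Tendsto (fun n => Real.log 4 + Real.log (1 - del n)) atTop (𝓝 (Real.log 4)) := by
    have h2 : Tendsto (fun n => Real.log (1 - del n)) atTop (𝓝 (Real.log 1)) := by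
      refine Tendsto.log ?_ (by norm_num)
      have := tendsto_del.const_sub 1
      rwa [sub_zero] at this
    have := h2.const_add (Real.log 4)
    rwa [Real.log_one, add_zero] at this
  have hev : ∀ᶠ n in atTop, del n < 1 := tendsto_del.eventually_lt_const one_pos
  refine tendsto_of_tendsto_of_tendsto_of_le_of_le' h1 tendsto_const_nhds ?_ ?_
  · filter_upwards [hev] with n hn
    have := (median_bounds n hn _ (hτ n)).1
    rw [le_div_iff₀ (by positivity)]
    linarith
  · filter_upwards [hev] with n hn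
    have := (median_bounds n hn _ (hτ n)).2
    rw [div_le_iff₀ (by positivity)]
    linarith

/-- uniform limits: for every `s ≥ 0` the distances at time `s τ n`, from all starts, are between
two sequences which tend to `4 ^ (-s)` -/
theorem profile (τ : ℕ → ℝ) (hτ : ∀ n, IsMedian (G n) (unif n) (τ n)) (s : ℝ) (_hs : 0 ≤ s) :
    Tendsto (fun n : ℕ => Real.exp (-(s * τ n / (n + 1))) * (1 - err n (s * τ n))) atTop
      (𝓝 ((4 : ℝ) ^ (-s))) ∧
    Tendsto (fun n : ℕ => Real.exp (-(s * τ n / (n + 1)))) atTop (𝓝 ((4 : ℝ) ^ (-s))) := by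
  have h0 := tendsto_median τ hτ
  have h1 : Tendsto (fun n : ℕ => Real.exp (-(s * τ n / (n + 1)))) atTop
      (𝓝 ((4 : ℝ) ^ (-s))) := by
    have h2 : (4 : ℝ) ^ (-s) = Real.exp (-(s * Real.log 4)) := by
      rw [Real.rpow_def_of_pos (by norm_num)]
      congr 1
      ring
    rw [h2]
    refine (Real.continuous_exp.tendsto _).comp ?_
    refine ((h0.const_mul s).neg).congr fun n => ?_
    ring
  refine ⟨?_, h1⟩
  have h3 : Tendsto (fun n : ℕ => err n (s * τ n)) atTop (𝓝 0) := by
    have h4 : Tendsto (fun n : ℕ => s * (τ n / (n + 1)) * (1 / ((n : ℝ) + 1))) atTop (𝓝 0) := by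
      have := (h0.const_mul s).mul tendsto_inv
      rwa [mul_zero] at this
    have h5 := h4.add tendsto_small
    rw [add_zero] at h5
    refine h5.congr fun n => ?_
    unfold err
    have hn : (0 : ℝ) < n + 1 := by positivity
    field_simp
  have := h1.mul (h3.const_sub 1)
  rwa [sub_zero, mul_one] at this

theorem gap_eq (n : ℕ) : gap (G n) = 1 + 1 / (n + 1) := by
  have hn : (0 : ℝ) < 1 / (n + 1) := by positivity
  have h : {r : ℝ | ∃ z : ℂ, z ∈ spectrum ℂ (-((G n).map (algebraMap ℝ ℂ))) ∧ z ≠ 0 ∧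
      r = z.re} = {1 + 1 / ((n : ℝ) + 1)} := by
    ext r
    simp only [Set.mem_ofPred_eq, Set.mem_singleton_iff]
    constructor
    · rintro ⟨z, hz, hz0, rfl⟩
      have := (DB.spec_C (len_pos n) (1 / ((n : ℝ) + 1)) hn z).1 ⟨hz, hz0⟩
      rw [this]
      exact Complex.ofReal_re _
    · rintro rfl
      have := (DB.spec_C (len_pos n) (1 / ((n : ℝ) + 1)) hn _).2 rfl
      exact ⟨_, this.1, this.2, (Complex.ofReal_re _).symm⟩
  unfold gap
  rw [h, csInf_singleton]

theorem J_apply {m : ℕ} (x y : Fin m → Bool) : DB.J m x y = 1 / 2 ^ m := rfl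

theorem G_apply (n : ℕ) (x y : W n) : G n x y =
    DB.P (len n) x y + 1 / (n + 1) * (1 / 2 ^ len n) -
      (1 + 1 / (n + 1)) * (if x = y then 1 else 0) := by
  unfold G DB.Q
  simp only [Matrix.add_apply, Matrix.sub_apply, Matrix.smul_apply, smul_eq_mul, J_apply,
    Matrix.one_apply]
  ring

theorem G_row (n : ℕ) (x : W n) : ∑ y, G n x y = 0 := by
  simp only [G_apply]
  rw [Finset.sum_sub_distrib, Finset.sum_add_distrib, Finset.sum_const, ← Finset.mul_sum,
    Finset.sum_ite_eq]
  have := DB.pow_row 1 x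
  rw [pow_one] at this
  rw [this]
  simp
  field_simp
  ring

theorem P_col {m : ℕ} (hm : 0 < m) (y : Fin m → Bool) : ∑ x, DB.P m x y = 1 := by
  have h := congrFun (congrFun (DB.JP hm) y) y
  rw [Matrix.mul_apply] at h
  simp only [J_apply] at h
  rw [← Finset.mul_sum] at h
  have h2 : (0 : ℝ) < 1 / 2 ^ m := by positivity
  exact mul_left_cancel₀ h2.ne' (h.trans (mul_one _).symm)

theorem G_col (n : ℕ) (y : W n) : ∑ x, G n x y = 0 := by
  simp only [G_apply]
  rw [Finset.sum_sub_distrib, Finset.sum_add_distrib, Finset.sum_const, ← Finset.mul_sum,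
    P_col (len_pos n)]
  simp
  field_simp
  ring

theorem G_pos (n : ℕ) (x y : W n) (h : x ≠ y) : 0 < G n x y := by
  rw [G_apply, if_neg h]
  have h1 := DB.P_nonneg x y
  have h2 : (0 : ℝ) < 1 / ((n : ℝ) + 1) * (1 / 2 ^ len n) := by positivity
  linarith

/-- the typical-start cutoff of the question, at the medians `τ n` -/
def HasTypicalCutoff (S : ℕ → Type) [∀ n, Fintype (S n)] [∀ n, DecidableEq (S n)]
    (Q : ∀ n, Matrix (S n) (S n) ℝ) (π : ∀ n, S n → ℝ) (τ : ℕ → ℝ) : Prop :=
  ∀ ε : ℝ, 0 < ε →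
    Tendsto (fun n => prob (π n) (fun x => 1 - ε < dist (Q n) (π n) x ((1 - ε) * τ n)))
      atTop (𝓝 1) ∧
    Tendsto (fun n => prob (π n) (fun x => dist (Q n) (π n) x ((1 + ε) * τ n) < ε)) atTop (𝓝 1)

/-- **Negative answer to Q1.** There are irreducible, non-reversible continuous-time chains on
finite sets `S_n`, with uniform stationary distribution and relaxation time at most `1`, such that
for the medians `τ n` of `τ_x` (which exist; `τ` may be any choice of them) `τ n / τ₂ → ∞`, but the
distance to stationarity from *every* start has the exponential profile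
`‖P_x(X_{s τ n} ∈ ·) - π‖ → 4 ^ (-s)`, `s ≥ 0`. Both parts of the typical-start cutoff fail: for
`0 < ε < 1/2` the first set of the question is eventually empty, and for `0 < ε ≤ 1/8` the second
one is. -/
theorem result :
    ∃ (S : ℕ → Type) (_ : ∀ n, Fintype (S n)) (_ : ∀ n, DecidableEq (S n))
      (Q : ∀ n, Matrix (S n) (S n) ℝ) (π : ∀ n, S n → ℝ),
      (∀ n, IsGenerator (Q n) ∧ IsIrred (Q n) ∧ IsStationary (Q n) (π n) ∧
        ¬ IsReversible (Q n) (π n)) ∧
      (∀ n x y, π n x = π n y) ∧
      (∀ n, 0 < trel (Q n) ∧ trel (Q n) ≤ 1) ∧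
      (∀ n, ∃ r, IsMedian (Q n) (π n) r) ∧
      ∀ τ : ℕ → ℝ, (∀ n, IsMedian (Q n) (π n) (τ n)) →
        Tendsto (fun n => τ n / trel (Q n)) atTop atTop ∧
        (∀ s : ℝ, 0 ≤ s → ∀ x : ∀ n, S n,
          Tendsto (fun n => dist (Q n) (π n) (x n) (s * τ n)) atTop (𝓝 ((4 : ℝ) ^ (-s)))) ∧
        (∀ ε : ℝ, 0 < ε → ε < 1 / 2 → ∀ᶠ n in atTop,
          ∀ x, ¬ 1 - ε < dist (Q n) (π n) x ((1 - ε) * τ n)) ∧
        (∀ ε : ℝ, 0 < ε → ε ≤ 1 / 8 → ∀ᶠ n in atTop,
          ∀ x, ¬ dist (Q n) (π n) x ((1 + ε) * τ n) < ε) ∧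
        ¬ HasTypicalCutoff S Q π τ := by
  refine ⟨W, fun n => inferInstance, fun n => inferInstance, G, unif, ?_, fun n x y => rfl, ?_, ?_,
    ?_⟩
  · intro n
    refine ⟨⟨fun x y h => (G_pos n x y h).le, G_row n⟩, ?_, ⟨fun x => ?_, ?_, ?_⟩, ?_⟩
    · intro x y
      by_cases h : x = y
      · rw [h]
      · exact Relation.ReflTransGen.single ⟨h, G_pos n x y h⟩
    · unfold unif
      positivity
    · simp [unif]
    · intro y
      unfold unif
      rw [← Finset.mul_sum, G_col, mul_zero]
    · intro hrev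
      have hlen : 2 ≤ len n := by
        unfold len
        have : 1 ≤ (n + 1) ^ 2 := Nat.one_le_pow _ _ (by omega)
        omega
      -- from the zero word one can shift in a one, but not back
      set x : W n := fun _ => false with hx
      set y : W n := DB.next x true with hy
      have hyv : ∀ j : Fin (len n), y j = if j.val + 1 < len n then false else true := by
        intro j
        simp only [hy, DB.next, hx]
        split_ifs <;> rfl
      have hxy : x ≠ y := by
        intro h
        have := congrFun h ⟨len n - 1, by omega⟩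
        rw [hyv] at this
        rw [if_neg (by simp; omega)] at this
        simp [hx] at this
      have h1 : DB.P (len n) x y = 1 / 2 := by
        unfold DB.P
        rw [if_neg, if_pos rfl]
        · norm_num
        · intro h
          have := congrFun h ⟨len n - 1, by omega⟩
          rw [hyv, if_neg (by simp; omega)] at this
          simp only [DB.next] at this
          rw [dif_neg (by omega)] at this
          exact absurd this (by decide)
      have h2 : DB.P (len n) y x = 0 := by
        unfold DB.P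
        have h3 : ∀ b, x ≠ DB.next y b := by
          intro b h
          have := congrFun h ⟨len n - 2, by omega⟩
          simp only [DB.next] at this
          rw [dif_pos (by omega), hyv, if_neg (by simp; omega)] at this
          simp [hx] at this
        rw [if_neg (h3 false), if_neg (h3 true)]
        norm_num
      have h4 := hrev x y
      rw [G_apply, G_apply, h1, h2, if_neg hxy, if_neg (Ne.symm hxy)] at h4
      unfold unif at h4
      have h5 : (0 : ℝ) < 1 / 2 ^ len n := by positivity
      have h6 := mul_left_cancel₀ h5.ne' h4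
      linarith
  · intro n
    unfold trel
    rw [gap_eq]
    have hn : (0 : ℝ) < 1 / (n + 1) := by positivity
    refine ⟨by positivity, ?_⟩
    rw [div_le_one (by positivity)]
    linarith
  · intro n
    exact exists_median (unif n) (tau (G n) (unif n)) (fun x => by unfold unif; positivity)
      (by simp [unif])
  · intro τ hτ
    have hlim : Tendsto (fun n : ℕ => τ n / ((n : ℝ) + 1)) atTop (𝓝 (Real.log 4)) :=
      tendsto_median τ hτ
    have hl : 0 < Real.log 4 := Real.log_pos (by norm_num)
    have hτ0 : ∀ᶠ n in atTop, 0 ≤ τ n := by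
      filter_upwards [hlim.eventually_const_lt hl] with n hn
      have h1 : (0 : ℝ) < n + 1 := by positivity
      have := (div_pos_iff_of_pos_right h1).1 hn
      exact this.le
    have hprof : ∀ s : ℝ, 0 ≤ s → ∀ x : ∀ n, W n,
        Tendsto (fun n => dist (G n) (unif n) (x n) (s * τ n)) atTop (𝓝 ((4 : ℝ) ^ (-s))) := by
      intro s hs x
      obtain ⟨h1, h2⟩ := profile τ hτ s hs
      refine tendsto_of_tendsto_of_tendsto_of_le_of_le' h1 h2 ?_ ?_
      · filter_upwards [hτ0] with n hn
        exact dist_lower n (x n) _ (mul_nonneg hs hn)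
      · filter_upwards [hτ0] with n hn
        exact dist_upper n (x n) _ (mul_nonneg hs hn)
    have hA : ∀ ε : ℝ, 0 < ε → ε < 1 / 2 → ∀ᶠ n in atTop,
        ∀ x, ¬ 1 - ε < dist (G n) (unif n) x ((1 - ε) * τ n) := by
      intro ε h0 h1
      obtain ⟨-, h2⟩ := profile τ hτ (1 - ε) (by linarith)
      have h3 : (4 : ℝ) ^ (-(1 - ε)) < 1 - ε := by
        have h4 : (4 : ℝ) ^ (-(1 - ε)) < 4 ^ (-(1 / 2 : ℝ)) :=
          Real.rpow_lt_rpow_of_exponent_lt (by norm_num) (by linarith)
        have h5 : (4 : ℝ) ^ (-(1 / 2 : ℝ)) = 1 / 2 := by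
          rw [Real.rpow_neg (by norm_num), ← Real.sqrt_eq_rpow]
          have : Real.sqrt 4 = 2 := by
            rw [show (4 : ℝ) = 2 ^ 2 by norm_num, Real.sqrt_sq (by norm_num)]
          rw [this]
          norm_num
        linarith
      filter_upwards [h2.eventually_lt_const h3, hτ0] with n hn hn0 x
      rw [not_lt]
      exact (dist_upper n x _ (mul_nonneg (by linarith) hn0)).trans hn.le
    have hB : ∀ ε : ℝ, 0 < ε → ε ≤ 1 / 8 → ∀ᶠ n in atTop,
        ∀ x, ¬ dist (G n) (unif n) x ((1 + ε) * τ n) < ε := by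
      intro ε h0 h1
      obtain ⟨h2, -⟩ := profile τ hτ (1 + ε) (by linarith)
      have h3 : ε < (4 : ℝ) ^ (-(1 + ε)) := by
        have h4 : (4 : ℝ) ^ (-(3 / 2 : ℝ)) < 4 ^ (-(1 + ε)) :=
          Real.rpow_lt_rpow_of_exponent_lt (by norm_num) (by linarith)
        have h5 : (4 : ℝ) ^ (-(3 / 2 : ℝ)) = 1 / 8 := by
          have h6 : (4 : ℝ) ^ (3 / 2 : ℝ) = 8 := by
            rw [show (4 : ℝ) = 2 ^ (2 : ℝ) by norm_num, ← Real.rpow_mul (by norm_num)]
            norm_num
          rw [Real.rpow_neg (by norm_num), h6]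
          norm_num
        linarith
      filter_upwards [h2.eventually_const_lt h3, hτ0] with n hn hn0 x
      rw [not_lt]
      exact hn.le.trans (dist_lower n x _ (mul_nonneg (by linarith) hn0))
    refine ⟨?_, hprof, hA, hB, ?_⟩
    · have h1 : Tendsto (fun n : ℕ => τ n / ((n : ℝ) + 1) * (n + 1)) atTop atTop :=
        hlim.pos_mul_atTop hl (tendsto_atTop_add_const_right _ _ tendsto_natCast_atTop_atTop)
      refine tendsto_atTop_mono' _ ?_ h1
      filter_upwards [hτ0] with n hn
      have hn1 : (0 : ℝ) < 1 / (n + 1) := by positivity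
      have hn2 : (n : ℝ) + 1 ≠ 0 := by positivity
      unfold trel
      rw [gap_eq, div_mul_cancel₀ _ hn2]
      rw [div_div_eq_mul_div, div_one]
      nlinarith
    · intro hcut
      have h1 := (hcut (1 / 8) (by norm_num)).1
      have h2 : ∀ᶠ n in atTop, prob (unif n) (fun x => 1 - 1 / 8 <
          dist (G n) (unif n) x ((1 - 1 / 8) * τ n)) = 0 := by
        filter_upwards [hA (1 / 8) (by norm_num) (by norm_num)] with n hn
        exact prob_eq_zero _ _ hn
      rw [tendsto_congr' h2] at h1
      have := tendsto_nhds_unique h1 tendsto_const_nhds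
      norm_num at this

end

end Pool.Agent.Results.MP_d1aba8_pr.NonreversibleNoCutoff
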